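import Pool.Agent.W2helper9.OP.Stm

/-!
# Project OP (helper9), piece DIST: different points are incongruent at almost all places
-/

set_option autoImplicit false

open MvPolynomial IsDedekindDomain NumberField Filter

namespace Pool.Agent.W2helper53.OP

open Pool.Agent.W2helper9.OP

variable {K : Type} [Field K] [NumberField K]

theorem aa_mono {P Q : ValuationSubring (AlgebraicClosure K) → Prop} (h : ∀ A, P A → Q A)
    (hP : AA K P) : AA K Q := by
  refine Set.Finite.subset hP ?_
  rintro v ⟨A, hA, hQ⟩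
  exact ⟨A, hA, fun hp => hQ (h A hp)⟩

theorem aa_and {P Q : ValuationSubring (AlgebraicClosure K) → Prop} (hP : AA K P)
    (hQ : AA K Q) : AA K fun A => P A ∧ Q A := by
  refine (Set.Finite.union hP hQ).subset ?_
  rintro v ⟨A, hA, h⟩
  by_cases hp : P A
  · exact Or.inr ⟨A, hA, fun hq => h ⟨hp, hq⟩⟩
  · exact Or.inl ⟨A, hA, hp⟩

theorem aa_all {ι : Type} [Finite ι] {P : ι → ValuationSubring (AlgebraicClosure K) → Prop}
    (hP : ∀ i, AA K (P i)) : AA K fun A => ∀ i, P i A := by
  refine (Set.finite_iUnion hP).subset ?_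
  rintro v ⟨A, hA, h⟩
  push Not at h
  obtain ⟨i, hi⟩ := h
  exact Set.mem_iUnion.2 ⟨i, A, hA, hi⟩

theorem DIST : P_DIST := by
  intro hI K _ _ N x y hx hy hxy
  obtain ⟨i, hi⟩ : ∃ i, x i ≠ 0 := by
    by_contra h
    push Not at h
    exact hx (funext h)
  -- a nonzero minor
  obtain ⟨j, hj⟩ : ∃ j, x i * y j - x j * y i ≠ 0 := by
    by_contra h
    push Not at h
    refine hxy ⟨y i / x i, ?_, ?_⟩
    · intro h0
      rw [div_eq_zero_iff] at h0
      have hyi := h0.resolve_right hi
      apply hy
      funext j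
      have := h j
      rw [hyi, mul_zero, sub_zero] at this
      exact (mul_eq_zero.1 this).resolve_left hi
    · funext j
      rw [Pi.smul_apply, smul_eq_mul]
      field_simp
      linear_combination h j
  have h1 : AA K fun A => (∀ k, x k ∈ A) ∧ (∀ k, y k ∈ A) ∧ (x i)⁻¹ ∈ A ∧
      (x i * y j - x j * y i)⁻¹ ∈ A :=
    aa_and (aa_all fun k => hI K (x k)) (aa_and (aa_all fun k => hI K (y k))
      (aa_and (hI K _) (hI K _)))
  refine aa_mono ?_ h1
  rintro A ⟨a1, a2, a3, a4⟩ ⟨a, b, c1, ⟨k, c2⟩, c3⟩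
  simp only [← A.valuation_le_one_iff] at a1 a2 a3 a4
  have hlt : ∀ k, A.valuation (a * x k - b * y k) < 1 := c3
  -- `a` is a unit
  have hxi : A.valuation (x i) = 1 := by
    refine le_antisymm (a1 i) ?_
    rw [map_inv₀] at a3
    have h0 : 0 < A.valuation (x i) := zero_lt_iff.2 ((Valuation.ne_zero_iff _).2 hi)
    exact (inv_le_one₀ h0).1 a3
  have ha : A.valuation a ≤ 1 := by
    have := c1 i
    rwa [map_mul, hxi, mul_one] at this
  have hz : 1 ≤ A.valuation (x i * y j - x j * y i) := by
    rw [map_inv₀] at a4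
    exact (inv_le_one₀ (zero_lt_iff.2 ((Valuation.ne_zero_iff _).2 hj))).1 a4
  have hbk : A.valuation (b * y k) = 1 := by
    have e1 : b * y k = a * x k - (a * x k - b * y k) := by ring
    rw [e1]
    rw [Valuation.map_sub_eq_of_lt_left]
    · exact c2
    · rw [c2]; exact hlt k
  have hbge : 1 ≤ A.valuation b := by
    rw [map_mul] at hbk
    by_contra h
    push Not at h
    have : A.valuation b * A.valuation (y k) < 1 :=
      mul_lt_one_of_lt_of_le h (a2 k)
    rw [hbk] at this
    exact lt_irrefl _ this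
  have hage : 1 ≤ A.valuation a := by
    rw [map_mul] at c2
    by_contra h
    push Not at h
    have : A.valuation a * A.valuation (x k) < 1 :=
      mul_lt_one_of_lt_of_le h (a1 k)
    rw [c2] at this
    exact lt_irrefl _ this
  -- the minor
  have e2 : a * b * (x i * y j - x j * y i) =
      (a * x j) * (a * x i - b * y i) - (a * x i) * (a * x j - b * y j) := by ring
  have h5 : A.valuation (a * b * (x i * y j - x j * y i)) < 1 := by
    rw [e2]
    refine lt_of_le_of_lt (Valuation.map_sub _ _ _) (max_lt ?_ ?_)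
    · rw [map_mul]
      exact lt_of_le_of_lt (mul_le_of_le_one_left' (c1 j)) (hlt i)
    · rw [map_mul]
      exact lt_of_le_of_lt (mul_le_of_le_one_left' (c1 i)) (hlt j)
  rw [map_mul, map_mul] at h5
  have h6 : 1 ≤ A.valuation a * A.valuation b * A.valuation (x i * y j - x j * y i) :=
    one_le_mul (one_le_mul hage hbge) hz
  exact absurd h5 (not_lt.2 h6)

end Pool.Agent.W2helper53.OP
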