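import Pool.Agent.W2helper9.OP.Stm
import Pool.Agent.K3h8.RS.Frob

/-!
# Project OP (helper9), piece FROB: Frobenius automorphisms at a valuation ring of the closure
-/

set_option autoImplicit false

open MvPolynomial IsDedekindDomain NumberField Filter

namespace Pool.Agent.W2helper53.OP

open Pool.Agent.W2helper9.OP

variable {K : Type} [Field K] [NumberField K]

theorem over_lt {v : HeightOneSpectrum (𝓞 K)} {A : ValuationSubring (AlgebraicClosure K)}
    (h : Over v A) (x : K) :
    A.valuation (algebraMap K (AlgebraicClosure K) x) < 1 ↔ v.valuation K x < 1 := by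
  by_cases hx : x = 0
  · subst hx
    rw [map_zero, map_zero, map_zero]
    simp
  have h1 := h x⁻¹
  have hx' : algebraMap K (AlgebraicClosure K) x ≠ 0 := by rwa [Ne, map_eq_zero]
  rw [map_inv₀, ← A.valuation_le_one_iff, map_inv₀, map_inv₀,
    inv_le_one₀ (zero_lt_iff.2 ((Valuation.ne_zero_iff _).2 hx')),
    inv_le_one₀ (zero_lt_iff.2 ((Valuation.ne_zero_iff _).2 hx))] at h1
  rw [← not_le, ← not_le, h1]

/-- algebraic integers are in the valuation ring -/
theorem int_mem (A : ValuationSubring (AlgebraicClosure K)) {x : AlgebraicClosure K}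
    (hx : IsIntegral ℤ x) : x ∈ A := by
  have h2 : IsIntegral A x := hx.tower_top
  obtain ⟨y, hy⟩ := IsIntegrallyClosed.isIntegral_iff.1 h2
  rw [← hy]
  exact y.2

/-- the center of the valuation ring on a finite extension -/
theorem center {v : HeightOneSpectrum (𝓞 K)} {A : ValuationSubring (AlgebraicClosure K)}
    (hA : Over v A) (L : IntermediateField K (AlgebraicClosure K)) [NumberField L] :
    ∃ w : HeightOneSpectrum (𝓞 L), w.asIdeal.comap (algebraMap (𝓞 K) (𝓞 L)) = v.asIdeal ∧
      ∀ z : L, (z : AlgebraicClosure K) ∈ A ↔ w.valuation L z ≤ 1 := by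
  have hint : ∀ x : 𝓞 L, ((x : L) : AlgebraicClosure K) ∈ A := fun x =>
    int_mem A ((RingOfIntegers.isIntegral_coe x).map (L.val.restrictScalars ℤ))
  let φ : 𝓞 L →+* A := RingHom.codRestrict
    ((algebraMap L (AlgebraicClosure K)).comp (algebraMap (𝓞 L) L)) A.toSubring hint
  let Q : Ideal (𝓞 L) := (IsLocalRing.maximalIdeal A).comap φ
  have hQ : ∀ x : 𝓞 L, x ∈ Q ↔ A.valuation ((x : L) : AlgebraicClosure K) < 1 := fun x =>
    A.valuation_lt_one_iff (φ x)
  have hQp : Q.IsPrime := Ideal.comap_isPrime φ _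
  have hQv : Q.comap (algebraMap (𝓞 K) (𝓞 L)) = v.asIdeal := by
    ext x
    rw [Ideal.mem_comap, hQ, ← v.valuation_lt_one_iff_mem (K := K), ← over_lt hA]
    rfl
  have hQb : Q ≠ ⊥ := by
    intro h
    apply v.ne_bot
    rw [← hQv, h]
    rw [eq_bot_iff]
    intro x hx
    rw [Ideal.mem_comap, Ideal.mem_bot] at hx
    rw [Ideal.mem_bot]
    exact (FaithfulSMul.algebraMap_injective (𝓞 K) (𝓞 L)) (by rw [hx, map_zero])
  let w : HeightOneSpectrum (𝓞 L) := ⟨Q, hQp, hQb⟩
  have hle : ∀ x : 𝓞 L, A.valuation ((x : L) : AlgebraicClosure K) ≤ 1 := fun x =>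
    (A.valuation_le_one_iff _).2 (hint x)
  have hone : ∀ x : 𝓞 L, x ∉ Q → A.valuation ((x : L) : AlgebraicClosure K) = 1 := fun x hx =>
    le_antisymm (hle x) (not_lt.1 fun h => hx ((hQ x).2 h))
  have hfwd : ∀ z : L, w.valuation L z ≤ 1 → (z : AlgebraicClosure K) ∈ A := by
    intro z hz
    obtain ⟨n, d, hnd⟩ := w.exists_primeCompl_mul_eq_of_integer z hz
    have h1 : A.valuation (z : AlgebraicClosure K) * A.valuation (((d : 𝓞 L) : L) : AlgebraicClosure K)
        = A.valuation ((n : L) : AlgebraicClosure K) := by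
      rw [← map_mul]
      congr 1
      exact congrArg (fun t : L => (t : AlgebraicClosure K)) hnd
    rw [hone d d.2, mul_one] at h1
    rw [← A.valuation_le_one_iff, h1]
    exact hle n
  refine ⟨w, hQv, fun z => ⟨fun hz => ?_, hfwd z⟩⟩
  by_contra hcon
  rw [not_le] at hcon
  have hz0 : z ≠ 0 := by
    rintro rfl
    rw [map_zero] at hcon
    exact absurd hcon (not_lt.2 zero_le_one)
  have hlt : w.valuation L z⁻¹ < 1 := by
    rw [map_inv₀]
    exact inv_lt_one_of_one_lt₀ hcon
  obtain ⟨n, d, hnd⟩ := w.exists_primeCompl_mul_eq_of_integer z⁻¹ hlt.le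
  have hn : n ∈ Q := by
    have h2 : w.valuation L (algebraMap (𝓞 L) L n) < 1 := by
      rw [← hnd, map_mul]
      have h3 : w.valuation L (algebraMap (𝓞 L) L (d : 𝓞 L)) ≤ 1 := w.valuation_le_one (d : 𝓞 L)
      exact lt_of_le_of_lt (mul_le_of_le_one_right' h3) hlt
    exact (w.valuation_lt_one_iff_mem (K := L) n).1 h2
  have h1 : A.valuation ((z⁻¹ : L) : AlgebraicClosure K) *
      A.valuation (((d : 𝓞 L) : L) : AlgebraicClosure K) =
      A.valuation ((n : L) : AlgebraicClosure K) := by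
    rw [← map_mul]
    congr 1
    exact congrArg (fun t : L => (t : AlgebraicClosure K)) hnd
  rw [hone d d.2, mul_one] at h1
  have h4 : A.valuation ((z⁻¹ : L) : AlgebraicClosure K) < 1 := by
    rw [h1]
    exact (hQ n).1 hn
  have h5 : A.valuation (z : AlgebraicClosure K) ≤ 1 := (A.valuation_le_one_iff _).2 hz
  have h6 : A.valuation (z : AlgebraicClosure K) *
      A.valuation ((z⁻¹ : L) : AlgebraicClosure K) = 1 := by
    rw [← map_mul]
    have : (z : AlgebraicClosure K) * ((z⁻¹ : L) : AlgebraicClosure K) = 1 := by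
      have h7 : z * z⁻¹ = 1 := mul_inv_cancel₀ hz0
      exact congrArg (fun t : L => (t : AlgebraicClosure K)) h7
    rw [this, map_one]
  have h8 : A.valuation (z : AlgebraicClosure K) *
      A.valuation ((z⁻¹ : L) : AlgebraicClosure K) < 1 :=
    lt_of_le_of_lt (mul_le_of_le_one_left' h5) h4
  rw [h6] at h8
  exact lt_irrefl _ h8

theorem FROB : P_FROB := by
  intro hfl K _ _ v A hA L _ _
  have : NumberField L := NumberField.of_module_finite K L
  obtain ⟨w, hw, hz⟩ := center hA L
  obtain ⟨σ, hσ⟩ := Pool.Agent.K3h8.RS.exists_frob K L v w hw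
  exact ⟨σ, hfl K L w A σ _ hz hσ⟩

end Pool.Agent.W2helper53.OP
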