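import Pool.Agent.W2helper9.OP.Basic

/-!
# Project OP (helper9), part 2, pieces PRE and ITER: auxiliary results
-/

set_option autoImplicit false

open MvPolynomial IsDedekindDomain NumberField Filter

namespace Pool.Agent.W2helper53.OP

open Pool.Agent.Helper819.Dyn (Tuple IsEnd)
open Pool.Agent.W2helper9.OP

/-- iterates are given by forms -/
theorem iter_aux (K : Type) [Field K] (N d : ℕ) (F : Tuple K N)
    (hF : ∀ i, (F i).IsHomogeneous d) (r : ℕ) : ∃ G : Tuple K N,
    (∀ i, (G i).IsHomogeneous (d ^ r)) ∧ ∀ (E : Type) [Field E] [Algebra K E],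
      ∀ x : Fin (N + 1) → E, mp G x = (mp F)^[r] x := by
  induction r with
  | zero =>
    refine ⟨fun i => X i, fun i => ?_, fun E _ _ x => ?_⟩
    · rw [pow_zero]
      exact isHomogeneous_X _ _
    · funext i
      simp [mp]
  | succ r ih =>
    obtain ⟨G, hG, h⟩ := ih
    refine ⟨fun i => aeval G (F i), fun i => ?_, fun E _ _ x => ?_⟩
    · rw [pow_succ]
      exact (hF i).aeval G hG
    · rw [Function.iterate_succ_apply', ← h E x]
      funext i
      show aeval x (bind₁ G (F i)) = aeval (fun j => aeval x (G j)) (F i)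
      rw [aeval_bind₁]

/-- a binary form along a line -/
theorem path {K Ω : Type} [Field K] [Field Ω] [Algebra K Ω] {d : ℕ}
    {f : MvPolynomial (Fin 2) K} (hf : f.IsHomogeneous d) (p q : Fin 2 → Ω) :
    ∃ g : Polynomial Ω, g.natDegree ≤ d ∧ g.coeff d = aeval p f ∧
      ∀ t : Ω, g.eval t = aeval (t • p + q) f := by
  have hlin : ∀ j, (Polynomial.C (p j) * Polynomial.X + Polynomial.C (q j)).natDegree ≤ 1 :=
    fun j => Polynomial.natDegree_linear_le
  have hdeg : ∀ m ∈ f.support, m 0 + m 1 = d := by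
    intro m hm
    have h1 := hf (mem_support_iff.1 hm)
    rw [Finsupp.weight_apply, Finsupp.sum_fintype _ _ (by simp), Fin.sum_univ_two] at h1
    simpa using h1
  refine ⟨aeval (fun j => Polynomial.C (p j) * Polynomial.X + Polynomial.C (q j)) f, ?_, ?_, ?_⟩
  · rw [aeval_def, eval₂_eq']
    refine Polynomial.natDegree_sum_le_of_forall_le _ _ fun m hm => ?_
    rw [Fin.prod_univ_two, ← hdeg m hm]
    refine (Polynomial.natDegree_mul_le).trans ?_
    have e0 : (algebraMap K (Polynomial Ω) (coeff m f)).natDegree = 0 := by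
      rw [IsScalarTower.algebraMap_apply K Ω (Polynomial Ω), Polynomial.algebraMap_eq,
        Polynomial.natDegree_C]
    rw [e0, zero_add]
    refine (Polynomial.natDegree_mul_le).trans (add_le_add ?_ ?_)
    · refine (Polynomial.natDegree_pow_le).trans ?_
      have := Nat.mul_le_mul_left (m 0) (hlin 0)
      simpa using this
    · refine (Polynomial.natDegree_pow_le).trans ?_
      have := Nat.mul_le_mul_left (m 1) (hlin 1)
      simpa using this
  · rw [aeval_def, eval₂_eq', aeval_def, eval₂_eq', Polynomial.finsetSum_coeff]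
    refine Finset.sum_congr rfl fun m hm => ?_
    rw [Fin.prod_univ_two, Fin.prod_univ_two, ← hdeg m hm,
      IsScalarTower.algebraMap_apply K Ω (Polynomial Ω), Polynomial.algebraMap_eq,
      Polynomial.coeff_C_mul]
    congr 1
    have h0 := Polynomial.coeff_pow_of_natDegree_le (m := m 0) (hlin 0)
    have h1 := Polynomial.coeff_pow_of_natDegree_le (m := m 1) (hlin 1)
    rw [mul_one] at h0 h1
    have hc : ∀ j, (Polynomial.C (p j) * Polynomial.X + Polynomial.C (q j)).coeff 1 = p j := by
      intro j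
      simp [Polynomial.coeff_C]
    rw [hc] at h0 h1
    rw [← h0, ← h1]
    refine Polynomial.coeff_mul_add_eq_of_natDegree_le ?_ ?_
    · refine (Polynomial.natDegree_pow_le).trans ?_
      have := Nat.mul_le_mul_left (m 0) (hlin 0)
      simpa using this
    · refine (Polynomial.natDegree_pow_le).trans ?_
      have := Nat.mul_le_mul_left (m 1) (hlin 1)
      simpa using this
  · intro t
    have h1 : ∀ g : MvPolynomial (Fin 2) K, Polynomial.eval t (aeval (fun j =>
        Polynomial.C (p j) * Polynomial.X + Polynomial.C (q j)) g) = aeval (t • p + q) g := by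
      intro g
      induction g using MvPolynomial.induction_on with
      | C a => rw [aeval_C, aeval_C, IsScalarTower.algebraMap_apply K Ω (Polynomial Ω),
          Polynomial.algebraMap_eq, Polynomial.eval_C]
      | add a b ha hb => rw [map_add, Polynomial.eval_add, ha, hb, map_add]
      | mul_X a n ha =>
        rw [map_mul, Polynomial.eval_mul, ha, map_mul, aeval_X, aeval_X]
        congr 1
        rw [Polynomial.eval_add, Polynomial.eval_mul, Polynomial.eval_C, Polynomial.eval_X,
          Polynomial.eval_C, Pi.add_apply, Pi.smul_apply, smul_eq_mul, mul_comm]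
    exact h1 f

section det

variable {Ω : Type} [Field Ω]

theorem peq_of_det {x y : Fin 2 → Ω} (hx : x ≠ 0) (hy : y ≠ 0)
    (h : x 0 * y 1 - x 1 * y 0 = 0) : PEq x y := by
  by_cases h0 : x 0 = 0
  · have h1 : x 1 ≠ 0 := by
      intro h1
      apply hx
      funext i
      fin_cases i
      · exact h0
      · exact h1
    rw [h0, zero_mul, zero_sub, neg_eq_zero] at h
    have hy0 : y 0 = 0 := (mul_eq_zero.1 h).resolve_left h1
    have hy1 : y 1 ≠ 0 := by
      intro h2
      apply hy
      funext i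
      fin_cases i
      · exact hy0
      · exact h2
    refine ⟨y 1 / x 1, div_ne_zero hy1 h1, ?_⟩
    funext i
    fin_cases i
    · show y 0 = y 1 / x 1 * x 0
      rw [hy0, h0, mul_zero]
    · show y 1 = y 1 / x 1 * x 1
      field_simp
  · have hy0 : y 0 ≠ 0 := by
      intro h2
      rw [h2, mul_zero, sub_zero] at h
      have hy1 := (mul_eq_zero.1 h).resolve_left h0
      apply hy
      funext i
      fin_cases i
      · exact h2
      · exact hy1
    refine ⟨y 0 / x 0, div_ne_zero hy0 h0, ?_⟩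
    funext i
    fin_cases i
    · show y 0 = y 0 / x 0 * x 0
      field_simp
    · show y 1 = y 0 / x 0 * x 1
      field_simp
      linear_combination h

theorem det_of_peq {x y : Fin 2 → Ω} (h : PEq x y) : x 0 * y 1 - x 1 * y 0 = 0 := by
  obtain ⟨c, -, rfl⟩ := h
  simp only [Pi.smul_apply, smul_eq_mul]
  ring

/-- a polynomial over an algebraically closed field with a vanishing high coefficient -/
theorem root_or_coeff [IsAlgClosed Ω] (g : Polynomial Ω) {n : ℕ} (hn : 1 ≤ n) :
    (∃ t, g.eval t = 0) ∨ g.coeff n = 0 := by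
  by_cases h : g.degree = 0
  · right
    refine Polynomial.coeff_eq_zero_of_degree_lt ?_
    rw [h]
    exact_mod_cast hn
  · left
    obtain ⟨t, ht⟩ := IsAlgClosed.exists_root g h
    exact ⟨t, ht⟩

variable [IsAlgClosed Ω] {d : ℕ} {φ : (Fin 2 → Ω) → Fin 2 → Ω}

/-- `φ` is given by binary forms of degree `d` without a common zero -/
structure Good (d : ℕ) (φ : (Fin 2 → Ω) → Fin 2 → Ω) : Prop where
  nz : ∀ x, x ≠ 0 → φ x ≠ 0
  path : ∀ (p q : Fin 2 → Ω) (i : Fin 2), ∃ g : Polynomial Ω, g.natDegree ≤ d ∧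
    g.coeff d = φ p i ∧ ∀ t : Ω, g.eval t = φ (t • p + q) i

theorem Good.surj (h : Good d φ) (hd : 1 ≤ d) (b : Fin 2 → Ω) (hb : b ≠ 0) :
    ∃ x, x ≠ 0 ∧ PEq (φ x) b := by
  obtain ⟨g0, -, hc0, he0⟩ := h.path ![1, 0] ![0, 1] 0
  obtain ⟨g1, -, hc1, he1⟩ := h.path ![1, 0] ![0, 1] 1
  rcases root_or_coeff (Polynomial.C (b 1) * g0 - Polynomial.C (b 0) * g1) hd with ⟨t, ht⟩ | hco
  · have hx : (t • ![1, 0] + ![0, 1] : Fin 2 → Ω) ≠ 0 := by
      intro h0
      have := congrFun h0 1
      simp at this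
    refine ⟨_, hx, peq_of_det (h.nz _ hx) hb ?_⟩
    rw [Polynomial.eval_sub, Polynomial.eval_mul, Polynomial.eval_mul, Polynomial.eval_C,
      Polynomial.eval_C, he0, he1] at ht
    linear_combination ht
  · have hx : (![1, 0] : Fin 2 → Ω) ≠ 0 := by
      intro h0
      have := congrFun h0 0
      simp at this
    refine ⟨_, hx, peq_of_det (h.nz _ hx) hb ?_⟩
    rw [Polynomial.coeff_sub, Polynomial.coeff_C_mul, Polynomial.coeff_C_mul, hc0, hc1] at hco
    linear_combination hco

theorem Good.fixed (h : Good d φ) : ∃ x, x ≠ 0 ∧ PEq (φ x) x := by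
  obtain ⟨g0, hd0, hc0, he0⟩ := h.path ![1, 0] ![0, 1] 0
  obtain ⟨g1, -, hc1, he1⟩ := h.path ![1, 0] ![0, 1] 1
  rcases root_or_coeff (g0 - Polynomial.X * g1) (n := d + 1) (by omega) with ⟨t, ht⟩ | hco
  · have hx : (t • ![1, 0] + ![0, 1] : Fin 2 → Ω) ≠ 0 := by
      intro h0
      have := congrFun h0 1
      simp at this
    refine ⟨_, hx, peq_of_det (h.nz _ hx) hx ?_⟩
    rw [Polynomial.eval_sub, Polynomial.eval_mul, Polynomial.eval_X, he0, he1] at ht
    have a0 : (t • ![1, 0] + ![0, 1] : Fin 2 → Ω) 0 = t := by simp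
    have a1 : (t • ![1, 0] + ![0, 1] : Fin 2 → Ω) 1 = 1 := by simp
    rw [a0, a1]
    linear_combination ht
  · have hx : (![1, 0] : Fin 2 → Ω) ≠ 0 := by
      intro h0
      have := congrFun h0 0
      simp at this
    refine ⟨_, hx, peq_of_det (h.nz _ hx) hx ?_⟩
    rw [Polynomial.coeff_sub, Polynomial.coeff_X_mul, hc1,
      Polynomial.coeff_eq_zero_of_natDegree_lt (by omega)] at hco
    have a0 : (![1, 0] : Fin 2 → Ω) 0 = 1 := rfl
    have a1 : (![1, 0] : Fin 2 → Ω) 1 = 0 := rfl
    rw [a0, a1]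
    linear_combination hco

/-- a fixed point with another preimage -/
theorem Good.other [CharZero Ω] (h : Good d φ) (hd : 2 ≤ d) :
    ∃ z, z ≠ 0 ∧ PEq (φ z) z ∧ ∃ b, b ≠ 0 ∧ ¬ PEq b z ∧ PEq (φ b) z := by
  by_contra hcon
  push Not at hcon
  obtain ⟨z, hz, hzf⟩ := h.fixed
  -- a second vector
  obtain ⟨e, he⟩ : ∃ e : Fin 2 → Ω, z 0 * e 1 - z 1 * e 0 ≠ 0 := by
    by_cases h0 : z 0 = 0
    · refine ⟨![1, 0], ?_⟩
      intro h1
      apply hz
      funext i
      fin_cases i
      · exact h0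
      · simpa using h1
    · exact ⟨![0, 1], by simpa using h0⟩
  obtain ⟨δ, hδ⟩ : ∃ δ : Ω, δ = z 0 * e 1 - z 1 * e 0 := ⟨_, rfl⟩
  rw [← hδ] at he
  obtain ⟨c, hc, hzc⟩ := hzf.symm
  obtain ⟨g0, hd0, hc0, he0⟩ := h.path z e 0
  obtain ⟨g1, hd1, hc1, he1⟩ := h.path z e 1
  have hz0 : φ z 0 = c * z 0 := by rw [hzc]; rfl
  have hz1 : φ z 1 = c * z 1 := by rw [hzc]; rfl
  -- points of the line
  have hpt : ∀ t : Ω, t • z + e ≠ 0 := by
    intro t h0
    have a0 : t * z 0 + e 0 = 0 := congrFun h0 0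
    have a1 : t * z 1 + e 1 = 0 := congrFun h0 1
    apply he
    rw [hδ]
    linear_combination z 0 * a1 - z 1 * a0
  have hdet : ∀ s t : Ω, (s • z + e) 0 * (t • z + e) 1 - (s • z + e) 1 * (t • z + e) 0 =
      (s - t) * δ := by
    intro s t
    simp only [Pi.add_apply, Pi.smul_apply, smul_eq_mul]
    rw [hδ]
    ring
  have hne : ∀ s t : Ω, s ≠ t → ¬ PEq (s • z + e) (t • z + e) := by
    intro s t hst hp
    have h1 := det_of_peq hp
    rw [hdet] at h1
    exact (mul_ne_zero (sub_ne_zero.2 hst) he) h1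
  have hnez : ∀ t : Ω, ¬ PEq (t • z + e) z := by
    intro t hp
    have h1 := det_of_peq hp
    simp only [Pi.add_apply, Pi.smul_apply, smul_eq_mul] at h1
    apply he
    rw [hδ]
    linear_combination -h1
  -- the polynomials `A` and `B`
  obtain ⟨B, hB⟩ : ∃ B : Polynomial Ω, B = Polynomial.C (z 0) * g1 - Polynomial.C (z 1) * g0 :=
    ⟨_, rfl⟩
  obtain ⟨A, hA⟩ : ∃ A : Polynomial Ω, A = Polynomial.C (e 1) * g0 - Polynomial.C (e 0) * g1 :=
    ⟨_, rfl⟩
  have hBe : ∀ t, B.eval t = z 0 * φ (t • z + e) 1 - z 1 * φ (t • z + e) 0 := by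
    intro t
    rw [hB, Polynomial.eval_sub, Polynomial.eval_mul, Polynomial.eval_mul, Polynomial.eval_C,
      Polynomial.eval_C, he0, he1]
  have hAe : ∀ t, A.eval t = e 1 * φ (t • z + e) 0 - e 0 * φ (t • z + e) 1 := by
    intro t
    rw [hA, Polynomial.eval_sub, Polynomial.eval_mul, Polynomial.eval_mul, Polynomial.eval_C,
      Polynomial.eval_C, he0, he1]
  have hB0 : ∀ t, B.eval t ≠ 0 := by
    intro t ht
    rw [hBe] at ht
    refine hcon z hz hzf (t • z + e) (hpt t) (hnez t) (peq_of_det (h.nz _ (hpt t)) hz ?_)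
    linear_combination -ht
  have hBdeg : B.degree = 0 := by
    by_contra hne0
    obtain ⟨t, ht⟩ := IsAlgClosed.exists_root B hne0
    exact hB0 t ht
  obtain ⟨b, hb⟩ : ∃ b : Ω, B = Polynomial.C b := ⟨_, Polynomial.eq_C_of_degree_eq_zero hBdeg⟩
  have hbe : ∀ t, B.eval t = b := fun t => by rw [hb, Polynomial.eval_C]
  have hb0 : b ≠ 0 := by rw [← hbe 0]; exact hB0 0
  -- the vector in terms of `A` and `b`
  have hfix : ∀ s t : Ω, A.eval t = b * s → PEq (φ (t • z + e)) (s • z + e) := by
    intro s t hst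
    refine peq_of_det (h.nz _ (hpt t)) (hpt s) ?_
    have h1 := hAe t
    have h2 := hBe t
    rw [hbe] at h2
    rw [hst] at h1
    simp only [Pi.add_apply, Pi.smul_apply, smul_eq_mul]
    linear_combination s * h2 - h1
  have hAdeg : A.natDegree ≤ d := by
    rw [hA]
    refine (Polynomial.natDegree_sub_le _ _).trans (max_le ?_ ?_)
    · exact (Polynomial.natDegree_C_mul_le _ _).trans hd0
    · exact (Polynomial.natDegree_C_mul_le _ _).trans hd1
  have hAc : A.coeff d = c * δ := by
    rw [hA, Polynomial.coeff_sub, Polynomial.coeff_C_mul, Polynomial.coeff_C_mul, hc0, hc1, hz0,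
      hz1, hδ]
    ring
  have hcd : c * δ ≠ 0 := mul_ne_zero hc he
  -- a second fixed point
  obtain ⟨t0, ht0⟩ : ∃ t0, A.eval t0 = b * t0 := by
    rcases root_or_coeff (A - Polynomial.C b * Polynomial.X) (n := d) (by omega) with
      ⟨t, ht⟩ | hco
    · refine ⟨t, ?_⟩
      rw [Polynomial.eval_sub, Polynomial.eval_mul, Polynomial.eval_C, Polynomial.eval_X] at ht
      exact sub_eq_zero.1 ht
    · exfalso
      rw [Polynomial.coeff_sub, Polynomial.coeff_C_mul, hAc, Polynomial.coeff_X_of_ne_one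
        (by omega), mul_zero, sub_zero] at hco
      exact hcd hco
  have honly : ∀ t, A.eval t = b * t0 → t = t0 := by
    intro t ht
    by_contra hne0
    exact hcon (t0 • z + e) (hpt t0) (hfix t0 t0 ht0) (t • z + e) (hpt t) (hne t t0 hne0)
      (hfix t0 t ht)
  -- the polynomial `A - b t0` is a power
  obtain ⟨P, hP⟩ : ∃ P : Polynomial Ω, P = A - Polynomial.C (b * t0) := ⟨_, rfl⟩
  have hPc : P.coeff d = c * δ := by
    rw [hP, Polynomial.coeff_sub, Polynomial.coeff_C_of_ne_zero (by omega), sub_zero, hAc]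
  have hPd : P.natDegree = d := by
    refine le_antisymm ?_ ?_
    · rw [hP]
      refine (Polynomial.natDegree_sub_le _ _).trans (max_le hAdeg ?_)
      rw [Polynomial.natDegree_C]
      omega
    · refine Polynomial.le_natDegree_of_ne_zero ?_
      rw [hPc]
      exact hcd
  have hP0 : P ≠ 0 := by
    intro h0
    rw [h0, Polynomial.coeff_zero] at hPc
    exact hcd hPc.symm
  have hroots : P.roots = Multiset.replicate d t0 := by
    rw [Multiset.eq_replicate]
    constructor
    · rw [← hPd]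
      exact (IsAlgClosed.splits P).natDegree_eq_card_roots.symm
    · intro t ht
      apply honly
      have := (Polynomial.mem_roots hP0).1 ht
      rw [Polynomial.IsRoot, hP, Polynomial.eval_sub, Polynomial.eval_C] at this
      exact sub_eq_zero.1 this
  have hPe : ∀ t, P.eval t = c * δ * (t - t0) ^ d := by
    intro t
    have h1 := (IsAlgClosed.splits P).eq_prod_roots
    rw [hroots, Multiset.map_replicate, Multiset.prod_replicate, Polynomial.leadingCoeff, hPd,
      hPc] at h1
    rw [h1]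
    simp
  have hAt : ∀ t, A.eval t = c * δ * (t - t0) ^ d + b * t0 := by
    intro t
    rw [← hPe, hP, Polynomial.eval_sub, Polynomial.eval_C]
    ring
  -- a third fixed point
  obtain ⟨s, hs⟩ := IsAlgClosed.exists_pow_nat_eq (b / (c * δ)) (n := d - 1) (by omega)
  have hs0 : s ≠ 0 := by
    rintro rfl
    rw [zero_pow (by omega)] at hs
    exact (div_ne_zero hb0 hcd) hs.symm
  have hsd : c * δ * s ^ d = b * s := by
    have h1 : s ^ d = s ^ (d - 1) * s := by
      rw [← pow_succ]
      congr 1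
      omega
    rw [h1, hs]
    field_simp
  have hNe : NeZero ((d : ℕ) : Ω) := ⟨by exact_mod_cast (by omega : d ≠ 0)⟩
  obtain ⟨ω, hω⟩ := HasEnoughRootsOfUnity.exists_primitiveRoot Ω d
  have hω1 : ω ≠ 1 := hω.ne_one (by omega)
  have hωd : ω ^ d = 1 := hω.pow_eq_one
  have f1 : A.eval (t0 + s) = b * (t0 + s) := by
    rw [hAt]
    have : t0 + s - t0 = s := by ring
    rw [this, hsd]
    ring
  have f2 : A.eval (t0 + ω * s) = b * (t0 + s) := by
    rw [hAt]
    have : t0 + ω * s - t0 = ω * s := by ring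
    rw [this, mul_pow, hωd, one_mul, hsd]
    ring
  refine hcon ((t0 + s) • z + e) (hpt _) (hfix _ _ f1) ((t0 + ω * s) • z + e) (hpt _)
    (hne _ _ ?_) (hfix _ _ f2)
  intro h1
  have h2 : (ω - 1) * s = 0 := by linear_combination h1
  rcases mul_eq_zero.1 h2 with h3 | h3
  · exact hω1 (sub_eq_zero.1 h3)
  · exact hs0 h3

end det

end Pool.Agent.W2helper53.OP
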