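import Pool.Agent.W2helper9.OP.Stm2
import Pool.Agent.W2helper53.OP.PreCore

/-!
# Project OP (helper9), part 2, pieces PRE and ITER
-/

set_option autoImplicit false

open MvPolynomial IsDedekindDomain NumberField Filter

namespace Pool.Agent.W2helper53.OP

open Pool.Agent.Helper819.Dyn (Tuple IsEnd)
open Pool.Agent.W2helper9.OP

/-- **ITER** -/
theorem p_iter : P_ITER := by
  intro K _ _ N d F hF r
  obtain ⟨G, hG, h⟩ := iter_aux K N d F hF r
  exact ⟨G, hG, fun x => h K x, fun x => h (AlgebraicClosure K) x⟩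

/-- **PRE** -/
theorem p_pre : P_PRE := by
  intro K _ _ d F hd hF
  have hgood : Good (Ω := AlgebraicClosure K) d (mp F) := by
    refine ⟨fun x hx => mp_ne_zero hF hx, fun p q i => ?_⟩
    obtain ⟨g, h1, h2, h3⟩ := path (hF.1 i) p q
    exact ⟨g, h1, h2, h3⟩
  obtain ⟨z, hz, hzf, b, hb, hbz, hbf⟩ := hgood.other hd
  obtain ⟨b2, hb2, hb2f⟩ := hgood.surj (by omega) b hb
  have hmp : ∀ {x y : Fin 2 → AlgebraicClosure K}, PEq x y → PEq (mp F x) (mp F y) := fun h =>
    h.mp hF.1
  have h20 : ¬ PEq b2 z := fun h => hbz ((hb2f.symm.trans (hmp h)).trans hzf)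
  have h21 : ¬ PEq b2 b := fun h => hbz ((hb2f.symm.trans (hmp h)).trans hbf)
  have hit : ∀ x : Fin 2 → AlgebraicClosure K, (mp F)^[2] x = mp F (mp F x) := fun x => rfl
  refine ⟨z, hz, hzf, ![z, b, b2], ?_, ?_, ?_⟩
  · intro i
    fin_cases i
    · exact hz
    · exact hb
    · exact hb2
  · intro i j hij
    fin_cases i <;> fin_cases j
    · exact absurd rfl hij
    · exact fun h => hbz h.symm
    · exact fun h => h20 h.symm
    · exact hbz
    · exact absurd rfl hij
    · exact fun h => h21 h.symm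
    · exact h20
    · exact h21
    · exact absurd rfl hij
  · intro i
    rw [hit]
    fin_cases i
    · exact (hmp hzf).trans hzf
    · exact (hmp hbf).trans hzf
    · exact (hmp hb2f).trans hbf

end Pool.Agent.W2helper53.OP
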